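import Pool.Agent.W669.HD.Stm2
import Pool.Agent.W975.HD.THO

set_option autoImplicit false

namespace Pool.Agent.W140.HD.SQ4

open Finset Pool.Agent.W669.HD

/-- the bilinear form on `4 x 4` matrices given by `K` -/
def TT (K : Q4) (f g : Fin 4 → Fin 4 → ℝ) : ℝ :=
  ∑ i, ∑ j, ∑ k, ∑ l, K i j k l * (f i j * g k l)

theorem TT_swap (K : Q4) (ha : ∀ i j k l, K j i k l = - K i j k l) (f g : Fin 4 → Fin 4 → ℝ) :
    TT K (fun i j => f j i) g = - TT K f g := by
  unfold TT
  rw [sum_comm, ← sum_neg_distrib]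
  refine sum_congr rfl fun i _ => ?_
  rw [← sum_neg_distrib]
  refine sum_congr rfl fun j _ => ?_
  rw [← sum_neg_distrib]
  refine sum_congr rfl fun k _ => ?_
  rw [← sum_neg_distrib]
  refine sum_congr rfl fun l _ => ?_
  rw [ha i j k l]
  ring

theorem TT_symm (K : Q4) (hp : ∀ i j k l, K k l i j = K i j k l) (f g : Fin 4 → Fin 4 → ℝ) :
    TT K f g = TT K g f := by
  unfold TT
  have h1 : ∀ (F : Fin 4 → Fin 4 → Fin 4 → Fin 4 → ℝ),
      ∑ i, ∑ j, ∑ k, ∑ l, F i j k l = ∑ i, ∑ j, ∑ k, ∑ l, F k l i j := by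
    intro F
    have h2 : ∑ i, ∑ j, ∑ k, ∑ l, F i j k l =
        ∑ p : Fin 4 × Fin 4, ∑ q : Fin 4 × Fin 4, F p.1 p.2 q.1 q.2 := by
      rw [Fintype.sum_prod_type]
      refine sum_congr rfl fun i _ => sum_congr rfl fun j _ => ?_
      rw [Fintype.sum_prod_type]
    have h3 : ∑ i, ∑ j, ∑ k, ∑ l, F k l i j =
        ∑ p : Fin 4 × Fin 4, ∑ q : Fin 4 × Fin 4, F q.1 q.2 p.1 p.2 := by
      rw [Fintype.sum_prod_type]
      refine sum_congr rfl fun i _ => sum_congr rfl fun j _ => ?_
      rw [Fintype.sum_prod_type]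
    rw [h2, h3, sum_comm]
  rw [h1]
  refine sum_congr rfl fun i _ => sum_congr rfl fun j _ => sum_congr rfl fun k _ =>
    sum_congr rfl fun l _ => ?_
  rw [hp i j k l]
  ring

theorem TT_half (K : Q4) (f f' g : Fin 4 → Fin 4 → ℝ) :
    TT K (fun i j => (f i j - f' i j) / 2) g = (TT K f g - TT K f' g) / 2 := by
  unfold TT
  rw [← sum_sub_distrib, sum_div]
  refine sum_congr rfl fun i _ => ?_
  rw [← sum_sub_distrib, sum_div]
  refine sum_congr rfl fun j _ => ?_
  rw [← sum_sub_distrib, sum_div]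
  refine sum_congr rfl fun k _ => ?_
  rw [← sum_sub_distrib, sum_div]
  refine sum_congr rfl fun l _ => ?_
  ring

theorem eps_anti (i j k l : Fin 4) : eps j i k l = - eps i j k l := by
  rw [Pool.Agent.W975.HD.eps_vals, Pool.Agent.W975.HD.eps_vals]; ring

theorem eps_pair (i j k l : Fin 4) : eps k l i j = eps i j k l := by
  rw [Pool.Agent.W975.HD.eps_vals, Pool.Agent.W975.HD.eps_vals]; ring

theorem sq4 : S_SQ4 := by
  classical
  intro P hP hS
  obtain ⟨t, ht⟩ := Pool.Agent.W975.HD.tho P (fun i j k l => hP.a12 i j k l)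
    (fun i j k l => hP.pair i j k l) hS
  set K : Q4 := fun i j k l => P i j k l + t * eps i j k l with hK
  have ha : ∀ i j k l, K j i k l = - K i j k l := by
    intro i j k l
    simp only [hK]
    rw [hP.a12 i j k l, eps_anti i j k l]
    ring
  have hp : ∀ i j k l, K k l i j = K i j k l := by
    intro i j k l
    simp only [hK]
    rw [hP.pair i j k l, eps_pair i j k l]
  have ha' : ∀ i j k l, K i j l k = - K i j k l := by
    intro i j k l
    rw [← hp i j l k, ha, hp]
  have hnn : ∀ f : Fin 4 → Fin 4 → ℝ, 0 ≤ TT K f f := by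
    intro f
    have h1 := ht (fun i j => (f i j - f j i) / 2) (fun i j => by ring)
    have h2 : ∀ g, TT K (fun i j => (f i j - f j i) / 2) g = TT K f g := by
      intro g
      have h3 := TT_half K f (fun i j => f j i) g
      rw [TT_swap K ha f g] at h3
      rw [h3]
      ring
    have h4 : TT K (fun i j => (f i j - f j i) / 2) (fun i j => (f i j - f j i) / 2) =
        TT K f f := by
      rw [h2, TT_symm K hp, h2]
    rw [← h4]
    exact h1
  obtain ⟨B, hB⟩ := sq_real (J := Fin 4 × Fin 4) (fun p q => K p.1 p.2 q.1 q.2)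
    (fun p q => (hp _ _ _ _)) (by
      intro x
      have h1 := hnn (fun i j => x (i, j))
      unfold TT at h1
      rw [Fintype.sum_prod_type]
      refine h1.trans_eq (sum_congr rfl fun i _ => sum_congr rfl fun j _ => ?_)
      rw [Fintype.sum_prod_type])
  have hB' : ∀ i j k l, K i j k l = ∑ a, B a (i, j) * B a (k, l) :=
    fun i j k l => hB (i, j) (k, l)
  have eqv := (Fintype.equivFin (Fin 4 × Fin 4)).symm
  refine ⟨t, Fintype.card (Fin 4 × Fin 4), fun a i j => B (eqv a) (i, j), ?_, ?_⟩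
  · have h3 : ∀ i j, ∑ a, (B a (j, i) + B a (i, j)) ^ 2 = 0 := by
      intro i j
      have h4 : ∑ a, (B a (j, i) + B a (i, j)) ^ 2 = ∑ a, B a (j, i) * B a (j, i) +
          2 * ∑ a, B a (j, i) * B a (i, j) + ∑ a, B a (i, j) * B a (i, j) := by
        rw [mul_sum, ← sum_add_distrib, ← sum_add_distrib]
        refine sum_congr rfl fun a _ => ?_
        ring
      rw [h4, ← hB', ← hB', ← hB', ha i j j i, ha' i j i j, ha i j i j]
      ring
    intro a i j
    have h5 := (sum_eq_zero_iff_of_nonneg fun a _ => sq_nonneg _).mp (h3 i j) (eqv a)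
      (mem_univ _)
    have h6 := pow_eq_zero_iff (two_ne_zero) |>.mp h5
    simp only
    linarith
  · intro i j k l
    have h7 := hB' i j k l
    simp only [hK] at h7
    rw [h7]
    exact (Equiv.sum_comp eqv (fun a => B a (i, j) * B a (k, l))).symm

end Pool.Agent.W140.HD.SQ4
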